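import Pool.Agent.Helper61.RC.Base2

open scoped ENNReal NNReal Topology CStarAlgebra ComplexOrder
open Filter

noncomputable section

namespace Pool.Agent.Helper61.RC

section abstr
variable {M : Type*} [CStarAlgebra M]

lemma abs_comm_star70 (U Z : M) (h2 : star U * U = 1) (h3 : U * star U = 1) :
    ‖Z * star U - star U * Z‖ ≤ ‖Z * U - U * Z‖ := by
  have h4 : Z * star U - star U * Z = star U * (U * Z - Z * U) * star U := by
    rw [mul_sub, sub_mul, ← mul_assoc (star U) U Z, h2, one_mul, mul_assoc (star U) (Z * U),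
      mul_assoc Z U, h3, mul_one]
  have h5 : U ∈ unitary M := by
    rw [Unitary.mem_iff]; exact ⟨h2, h3⟩
  have h6 : ‖star U‖ ≤ 1 := by
    rw [norm_star]
    by_cases hsub : Subsingleton M
    · rw [Subsingleton.elim U 0, norm_zero]; exact zero_le_one
    · have hnt : Nontrivial M := not_subsingleton_iff_nontrivial.mp hsub
      exact (CStarRing.norm_of_mem_unitary h5).le
  rw [h4]
  calc ‖star U * (U * Z - Z * U) * star U‖ ≤ ‖star U * (U * Z - Z * U)‖ * ‖star U‖ :=
        norm_mul_le _ _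
    _ ≤ (‖star U‖ * ‖U * Z - Z * U‖) * ‖star U‖ := by gcongr; exact norm_mul_le _ _
    _ ≤ (1 * ‖U * Z - Z * U‖) * 1 := by gcongr
    _ = ‖Z * U - U * Z‖ := by rw [one_mul, mul_one, norm_sub_rev]

lemma abs_comm_mul70 (Z S T : M) : ‖Z * (S * T) - (S * T) * Z‖
    ≤ ‖Z * S - S * Z‖ * ‖T‖ + ‖S‖ * ‖Z * T - T * Z‖ := by
  have h5 : Z * (S * T) - (S * T) * Z = (Z * S - S * Z) * T + S * (Z * T - T * Z) := by
    rw [sub_mul, mul_sub]
    simp only [mul_assoc]
    abel
  rw [h5]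
  exact (norm_add_le _ _).trans (add_le_add (norm_mul_le _ _) (norm_mul_le _ _))

lemma abs_comm_add70 (Z S T : M) : ‖Z * (S + T) - (S + T) * Z‖
    ≤ ‖Z * S - S * Z‖ + ‖Z * T - T * Z‖ := by
  have h5 : Z * (S + T) - (S + T) * Z = (Z * S - S * Z) + (Z * T - T * Z) := by
    rw [mul_add, add_mul]; abel
  rw [h5]
  exact norm_add_le _ _

lemma abs_comm_close70 (Z S T : M) : ‖Z * T - T * Z‖
    ≤ ‖Z * S - S * Z‖ + 2 * ‖Z‖ * ‖T - S‖ := by
  have h5 : Z * T - T * Z = (Z * S - S * Z) + (Z * (T - S) - (T - S) * Z) := by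
    rw [mul_sub, sub_mul]; abel
  rw [h5]
  have h6 : ‖Z * (T - S)‖ ≤ ‖Z‖ * ‖T - S‖ := norm_mul_le _ _
  have h7 : ‖(T - S) * Z‖ ≤ ‖T - S‖ * ‖Z‖ := norm_mul_le _ _
  calc ‖(Z * S - S * Z) + (Z * (T - S) - (T - S) * Z)‖
      ≤ ‖Z * S - S * Z‖ + ‖Z * (T - S) - (T - S) * Z‖ := norm_add_le _ _
    _ ≤ ‖Z * S - S * Z‖ + (‖Z * (T - S)‖ + ‖(T - S) * Z‖) := by
        gcongr; exact norm_sub_le _ _
    _ ≤ _ := by linarith

lemma nn70 (x : M) : 0 ≤ ‖x‖ := norm_nonneg x

end abstr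

lemma real_mul70 {u t s v δ : ℝ} (hδ : 0 < δ) (ht : 0 ≤ t) (hs : 0 ≤ s)
    (hu : u ≤ δ / (2 * (t + 1))) (hv : v ≤ δ / (2 * (s + 1))) : u * t + s * v ≤ δ := by
  have h6 : u * t ≤ δ / 2 := by
    calc u * t ≤ δ / (2 * (t + 1)) * t := by gcongr
      _ ≤ δ / (2 * (t + 1)) * (t + 1) := by gcongr; linarith
      _ = δ / 2 := by field_simp
  have h7 : s * v ≤ δ / 2 := by
    calc s * v ≤ s * (δ / (2 * (s + 1))) := by gcongr
      _ ≤ (s + 1) * (δ / (2 * (s + 1))) := by gcongr; linarith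
      _ = δ / 2 := by field_simp
  linarith

lemma real_close70 {u z t K δ : ℝ} (hδ : 0 < δ) (hK : 0 ≤ K) (hz0 : 0 ≤ z) (ht : 0 ≤ t)
    (hz : z ≤ K) (hu : u ≤ δ / 2) (hv : t ≤ δ / (4 * (K + 1))) : u + 2 * z * t ≤ δ := by
  have h6 : 2 * z * t ≤ δ / 2 := by
    calc 2 * z * t ≤ 2 * (K + 1) * (δ / (4 * (K + 1))) := by gcongr; linarith
      _ = δ / 2 := by field_simp; norm_num
  linarith

section C
variable {X : Type*} [MetricSpace X] [CompactSpace X]

/-- `dg k` as a star homomorphism. -/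
def dgHom70 (A : Type*) [CStarAlgebra A] (k : ℕ) : A →⋆ₐ[ℂ] Mat k A where
  toFun := dg k
  map_one' := by
    refine CStarMatrix.ext fun i j => ?_
    by_cases hij : i = j
    · subst hij; simp [dg]
    · simp [dg, hij]
  map_mul' a b := by
    refine CStarMatrix.ext fun i j => ?_
    rw [CStarMatrix.mul_apply]
    by_cases hij : i = j
    · subst hij
      simp [dg, Matrix.diagonal_apply]
    · simp only [dg, CStarMatrix.ofMatrix_apply, Matrix.diagonal_apply, hij, if_false]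
      symm
      refine Finset.sum_eq_zero fun l _ => ?_
      by_cases hil : i = l
      · subst hil; simp [hij]
      · simp [hil]
  map_zero' := by
    refine CStarMatrix.ext fun i j => ?_
    simp [dg]
  map_add' a b := by
    refine CStarMatrix.ext fun i j => ?_
    by_cases hij : i = j
    · subst hij; simp [dg]
    · simp [dg, hij]
  commutes' c := by
    refine CStarMatrix.ext fun i j => ?_
    rw [CStarMatrix.algebraMap_apply]
    by_cases hij : i = j
    · subst hij; simp [dg]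
    · simp [dg, hij]
  map_star' a := by
    refine CStarMatrix.ext fun i j => ?_
    rw [CStarMatrix.star_apply]
    by_cases hij : i = j
    · subst hij; simp [dg]
    · simp [dg, hij, Ne.symm hij]

/-- The matrix of functions. -/
def funMat70 (h : X ≃ₜ X) {k : ℕ} (F : Fin k → Fin k → C(X, ℂ)) : Mat k (Op X) :=
  CStarMatrix.ofMatrix (Matrix.of fun i j => mulOp h (F i j))

/-- Elements whose commutators with `Z` are controlled. -/
def Good70 (h : X ≃ₜ X) (k : ℕ) (T : Mat k (Op X)) : Prop :=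
  ∀ K δ : ℝ, 0 ≤ K → 0 < δ → ∃ ε₀ : ℝ, 0 < ε₀ ∧ ∀ Z : Mat k (Op X), ‖Z‖ ≤ K →
      (∀ F : Fin k → Fin k → C(X, ℂ), Z * funMat70 h F = funMat70 h F * Z) →
      ‖Z * dg k (shiftOp X) - dg k (shiftOp X) * Z‖ ≤ ε₀ → ‖Z * T - T * Z‖ ≤ δ

lemma good70_fun (h : X ≃ₜ X) {k : ℕ} (F : Fin k → Fin k → C(X, ℂ)) :
    Good70 h k (funMat70 h F) := by
  intro K δ _ hδ
  refine ⟨1, one_pos, fun Z _ hZ _ => ?_⟩
  rw [hZ F, sub_self, norm_zero]
  exact hδ.le

lemma good70_shift (h : X ≃ₜ X) (k : ℕ) : Good70 h k (dg k (shiftOp X)) := by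
  intro K δ _ hδ
  exact ⟨δ, hδ, fun Z _ _ hZ => hZ⟩

lemma good70_star_shift (h : X ≃ₜ X) (k : ℕ) : Good70 h k (dg k (star (shiftOp X))) := by
  intro K δ _ hδ
  refine ⟨δ, hδ, fun Z _ _ hZ => ?_⟩
  set U : Mat k (Op X) := dg k (shiftOp X) with hU
  have h1 : dg k (star (shiftOp X)) = star U := map_star (dgHom70 (Op X) k) (shiftOp X)
  have h2 : star U * U = 1 := by
    have := congrArg (dgHom70 (Op X) k) (star_shiftOp_mul (X := X))
    rwa [map_mul, map_star, map_one] at this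
  have h3 : U * star U = 1 := by
    have := congrArg (dgHom70 (Op X) k) (shiftOp_mul_star (X := X))
    rwa [map_mul, map_star, map_one] at this
  rw [h1]
  exact (abs_comm_star70 U Z h2 h3).trans hZ

lemma Good70.add {h : X ≃ₜ X} {k : ℕ} {S T : Mat k (Op X)} (hS : Good70 h k S)
    (hT : Good70 h k T) : Good70 h k (S + T) := by
  intro K δ hK hδ
  obtain ⟨e1, he1, h1⟩ := hS K (δ / 2) hK (by positivity)
  obtain ⟨e2, he2, h2⟩ := hT K (δ / 2) hK (by positivity)
  refine ⟨min e1 e2, lt_min he1 he2, fun Z hZ hF hU => ?_⟩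
  have h3 := h1 Z hZ hF (hU.trans (min_le_left _ _))
  have h4 := h2 Z hZ hF (hU.trans (min_le_right _ _))
  exact (abs_comm_add70 Z S T).trans (by linarith)

lemma Good70.mul {h : X ≃ₜ X} {k : ℕ} {S T : Mat k (Op X)} (hS : Good70 h k S)
    (hT : Good70 h k T) : Good70 h k (S * T) := by
  intro K δ hK hδ
  have hTn : 0 ≤ ‖T‖ := nn70 T
  have hSn : 0 ≤ ‖S‖ := nn70 S
  obtain ⟨t, ht⟩ : ∃ t : ℝ, t = ‖T‖ := ⟨_, rfl⟩
  obtain ⟨s, hs⟩ : ∃ s : ℝ, s = ‖S‖ := ⟨_, rfl⟩
  rw [← ht] at hTn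
  rw [← hs] at hSn
  obtain ⟨e1, he1, h1⟩ := hS K (δ / (2 * (t + 1))) hK (by positivity)
  obtain ⟨e2, he2, h2⟩ := hT K (δ / (2 * (s + 1))) hK (by positivity)
  refine ⟨min e1 e2, lt_min he1 he2, fun Z hZ hF hU => ?_⟩
  have h3 := h1 Z hZ hF (hU.trans (min_le_left _ _))
  have h4 := h2 Z hZ hF (hU.trans (min_le_right _ _))
  refine (abs_comm_mul70 Z S T).trans ?_
  rw [← ht, ← hs]
  exact real_mul70 hδ hTn hSn h3 h4

lemma Good70.of_closure {h : X ≃ₜ X} {k : ℕ} {T : Mat k (Op X)}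
    (hT : ∀ ε : ℝ, 0 < ε → ∃ S, Good70 h k S ∧ ‖T - S‖ ≤ ε) : Good70 h k T := by
  intro K δ hK hδ
  obtain ⟨S, hS, hST⟩ := hT (δ / (4 * (K + 1))) (by positivity)
  obtain ⟨e1, he1, h1⟩ := hS K (δ / 2) hK (by positivity)
  refine ⟨e1, he1, fun Z hZ hF hU => ?_⟩
  exact (abs_comm_close70 Z S T).trans
    (real_close70 hδ hK (nn70 Z) (nn70 (T - S)) hZ (h1 Z hZ hF hU) hST)

lemma dg_mulOp_eq70 (h : X ≃ₜ X) (k : ℕ) (f : C(X, ℂ)) :
    dg k (mulOp h f) = funMat70 h (fun i j : Fin k => if i = j then f else 0) := by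
  refine CStarMatrix.ext fun i j => ?_
  by_cases hij : i = j
  · subst hij; simp [dg, funMat70]
  · simp [dg, funMat70, hij]

lemma good70_cross (h : X ≃ₜ X) (k : ℕ) (T : Op X) (hT : T ∈ crossSub h) :
    Good70 h k (dg k T) := by
  have hclos : T ∈ closure ((StarAlgebra.adjoin ℂ (Set.range (mulOp h) ∪ {shiftOp X}) :
      StarSubalgebra ℂ (Op X)) : Set (Op X)) := hT
  refine Good70.of_closure fun ε hε => ?_
  obtain ⟨S, hS, hST⟩ := Metric.mem_closure_iff.mp hclos ε hε
  refine ⟨dg k S, ?_, ?_⟩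
  · have key : Good70 h k (dg k S) ∧ Good70 h k (dg k (star S)) := by
      have hS' : S ∈ StarAlgebra.adjoin ℂ (Set.range (mulOp h) ∪ {shiftOp X}) := hS
      clear hS hST
      induction hS' using StarAlgebra.adjoin_induction with
      | mem x hx =>
        rcases hx with ⟨f, rfl⟩ | hx
        · refine ⟨?_, ?_⟩
          · rw [dg_mulOp_eq70]; exact good70_fun h _
          · rw [← mulOp_star, dg_mulOp_eq70]; exact good70_fun h _
        · rw [Set.mem_singleton_iff] at hx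
          subst hx
          exact ⟨good70_shift h k, good70_star_shift h k⟩
      | algebraMap r =>
        have h1 : ∀ c : ℂ, Good70 h k (dg k (algebraMap ℂ (Op X) c)) := by
          intro c
          have : algebraMap ℂ (Op X) c = mulOp h (c • 1) := by
            rw [mulOp_smul, mulOp_one, Algebra.algebraMap_eq_smul_one]
          rw [this, dg_mulOp_eq70]; exact good70_fun h _
        refine ⟨h1 r, ?_⟩
        have : star (algebraMap ℂ (Op X) r) = algebraMap ℂ (Op X) (star r) :=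
          (algebraMap_star_comm r).symm
        rw [this]
        exact h1 _
      | add x y hx hy ihx ihy =>
        obtain ⟨a1, a2⟩ := ihx
        obtain ⟨b1, b2⟩ := ihy
        rw [star_add]
        have e1 : dg k (x + y) = dg k x + dg k y := map_add (dgHom70 (Op X) k) x y
        have e2 : dg k (star x + star y) = dg k (star x) + dg k (star y) :=
          map_add (dgHom70 (Op X) k) _ _
        rw [e1, e2]
        exact ⟨a1.add b1, a2.add b2⟩
      | mul x y hx hy ihx ihy =>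
        obtain ⟨a1, a2⟩ := ihx
        obtain ⟨b1, b2⟩ := ihy
        rw [star_mul]
        have e1 : dg k (x * y) = dg k x * dg k y := map_mul (dgHom70 (Op X) k) x y
        have e2 : dg k (star y * star x) = dg k (star y) * dg k (star x) :=
          map_mul (dgHom70 (Op X) k) _ _
        rw [e1, e2]
        exact ⟨a1.mul b1, b2.mul a2⟩
      | star x hx ih =>
        obtain ⟨a1, a2⟩ := ih
        rw [star_star]
        exact ⟨a2, a1⟩
    exact key.1
  · have e1 : dg k T - dg k S = dg k (T - S) := (map_sub (dgHom70 (Op X) k) T S).symm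
    rw [e1]
    have h2 : ‖dgHom70 (Op X) k (T - S)‖ ≤ ‖T - S‖ := NonUnitalStarAlgHom.norm_apply_le _ _
    refine h2.trans ?_
    rw [← dist_eq_norm]
    exact hST.le

lemma inc_eq_sum70 (h : X ≃ₜ X) {k : ℕ} (T : Mat k (Cross h)) :
    inc h T = ∑ i : Fin k, ∑ j : Fin k,
      funMat70 h (fun a b : Fin k => if a = i ∧ b = j then (1 : C(X, ℂ)) else 0)
        * dg k (val h (T i j)) := by
  refine CStarMatrix.ext fun a b => ?_
  have hsum : ∀ (f : Fin k → Fin k → Mat k (Op X)),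
      (∑ i : Fin k, ∑ j : Fin k, f i j) a b = ∑ i : Fin k, ∑ j : Fin k, f i j a b := by
    intro f
    have h1 : ∀ (g : Fin k → Mat k (Op X)), (∑ i : Fin k, g i) a b = ∑ i : Fin k, g i a b := by
      intro g
      exact (Finset.sum_apply a Finset.univ g ▸ by
        rw [Finset.sum_apply] : (∑ i : Fin k, g i) a b = ∑ i : Fin k, g i a b)
    rw [h1]
    exact Finset.sum_congr rfl fun i _ => h1 _
  rw [hsum, inc_apply]
  have hterm : ∀ i j : Fin k,
      (funMat70 h (fun a b : Fin k => if a = i ∧ b = j then (1 : C(X, ℂ)) else 0)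
        * dg k (val h (T i j))) a b = if a = i ∧ b = j then val h (T i j) else 0 := by
    intro i j
    rw [CStarMatrix.mul_apply]
    rw [Finset.sum_eq_single b]
    · by_cases hab : a = i ∧ b = j
      · simp [funMat70, dg, hab]
      · simp [funMat70, dg, hab]
    · intro l _ hl
      simp [dg, Matrix.diagonal_apply, hl]
    · simp
  simp only [hterm]
  rw [Finset.sum_eq_single a, Finset.sum_eq_single b]
  · simp
  · intro l _ hl
    simp [Ne.symm hl]
  · simp
  · intro l _ hl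
    refine Finset.sum_eq_zero fun j _ => ?_
    simp [Ne.symm hl]
  · simp

lemma Good70.sum {h : X ≃ₜ X} {k : ℕ} {ι : Type*} (s : Finset ι) (f : ι → Mat k (Op X))
    (hf : ∀ i ∈ s, Good70 h k (f i)) : Good70 h k (∑ i ∈ s, f i) := by
  classical
  induction s using Finset.induction_on with
  | empty =>
    rw [Finset.sum_empty]
    intro K δ _ hδ
    refine ⟨1, one_pos, fun Z _ _ _ => ?_⟩
    rw [mul_zero, zero_mul, sub_zero, norm_zero]
    exact hδ.le
  | insert a s ha ih =>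
    rw [Finset.sum_insert ha]
    exact (hf a (Finset.mem_insert_self a s)).add
      (ih fun i hi => hf i (Finset.mem_insert_of_mem hi))

theorem comm_small (h : X ≃ₜ X) {k : ℕ} (T : Mat k (Cross h)) (K δ : ℝ) (hK : 0 ≤ K)
    (hδ : 0 < δ) : ∃ ε₀ : ℝ, 0 < ε₀ ∧ ∀ Z : Mat k (Op X), ‖Z‖ ≤ K →
      (∀ F : Fin k → Fin k → C(X, ℂ),
        Z * CStarMatrix.ofMatrix (Matrix.of fun i j => mulOp h (F i j))
          = CStarMatrix.ofMatrix (Matrix.of fun i j => mulOp h (F i j)) * Z) →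
      ‖Z * dg k (shiftOp X) - dg k (shiftOp X) * Z‖ ≤ ε₀ → ‖Z * inc h T - inc h T * Z‖ ≤ δ := by
  have hgood : Good70 h k (inc h T) := by
    rw [inc_eq_sum70]
    refine Good70.sum _ _ fun i _ => Good70.sum _ _ fun j _ => ?_
    exact (good70_fun h _).mul (good70_cross h k _ (val_mem h _))
  exact hgood K δ hK hδ

end C

end Pool.Agent.Helper61.RC
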