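import Pool.Agent.Helper70.RC.Traces

open scoped ENNReal NNReal Topology CStarAlgebra ComplexOrder
open Filter

noncomputable section

namespace Pool.Agent.Helper61.RC

section B
variable {A : Type*} [CStarAlgebra A] [PartialOrder A] [StarOrderedRing A]

/-- A pointwise limit of tracial states along an ultrafilter is a tracial state. -/
lemma exists_limit_trace (U : Ultrafilter ℕ) (τ : ℕ → TracialState A) :
    ∃ σ : TracialState A, ∀ a, Tendsto (fun m => (τ m).toLin a) U (𝓝 (σ.toLin a)) := by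
  have hex : ∀ a : A, ∃ z : ℂ, Tendsto (fun m => (τ m).toLin a) U (𝓝 z) := by
    intro a
    have hc : IsCompact (Metric.closedBall (0 : ℂ) ‖a‖) := isCompact_closedBall _ _
    have hle : (U.map (fun m => (τ m).toLin a) : Filter ℂ)
        ≤ 𝓟 (Metric.closedBall (0 : ℂ) ‖a‖) := by
      rw [le_principal_iff]
      change (fun m => (τ m).toLin a) ⁻¹' (Metric.closedBall (0 : ℂ) ‖a‖) ∈ (U : Filter ℕ)
      refine Filter.mem_of_superset Filter.univ_mem ?_
      intro m _
      rw [Set.mem_preimage, mem_closedBall_zero_iff]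
      exact (τ m).norm_toLin_le a
    obtain ⟨z, _, hz⟩ := hc.ultrafilter_le_nhds _ hle
    exact ⟨z, hz⟩
  choose L hL using hex
  have huniq : ∀ (f : ℕ → ℂ) (z w : ℂ), Tendsto f U (𝓝 z) → Tendsto f U (𝓝 w) → z = w :=
    fun f z w h1 h2 => tendsto_nhds_unique h1 h2
  refine ⟨⟨⟨⟨L, ?_⟩, ?_⟩, ?_, ?_, ?_⟩, hL⟩
  · intro a b
    refine huniq _ _ _ (hL (a + b)) ?_
    simpa [map_add] using (hL a).add (hL b)
  · intro c a
    refine huniq _ _ _ (hL (c • a)) ?_
    simpa [map_smul] using (hL a).const_mul c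
  · intro a
    change 0 ≤ L (star a * a)
    refine ge_of_tendsto (hL (star a * a)) (Eventually.of_forall fun m => (τ m).pos' a)
  · change L 1 = 1
    refine huniq _ _ _ (hL 1) ?_
    simp [TracialState.one']
  · intro a b
    change L (a * b) = L (b * a)
    refine huniq _ _ _ (hL (a * b)) ?_
    simpa [TracialState.comm' _ a b] using hL (b * a)

theorem uniform_gap {k : ℕ} (x : Mat k A) (y : ℕ → Mat k A) (s : ℝ)
    (hmono : ∀ τ : TracialState A, Monotone fun m => (τ.mat (y m)).re)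
    (h : ∀ τ : TracialState A, ∃ m, (τ.mat x).re + s < (τ.mat (y m)).re) :
    ∃ m, ∃ η : ℝ, 0 < η ∧ ∀ τ : TracialState A, (τ.mat x).re + s + η ≤ (τ.mat (y m)).re := by
  by_contra hcon
  push Not at hcon
  have hcon' : ∀ m : ℕ, ∃ τ : TracialState A,
      (τ.mat (y m)).re < (τ.mat x).re + s + 1 / ((m : ℝ) + 1) :=
    fun m => hcon m _ (by positivity)
  choose τ hτ using hcon'
  obtain ⟨σ, hσ⟩ := exists_limit_trace (hyperfilter ℕ) τ
  have hlim : ∀ a : Mat k A, Tendsto (fun m => ((τ m).mat a).re) (hyperfilter ℕ : Filter ℕ)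
      (𝓝 ((σ.mat a).re)) := by
    intro a
    have : Tendsto (fun m => (τ m).mat a) (hyperfilter ℕ : Filter ℕ) (𝓝 (σ.mat a)) := by
      change Tendsto (fun m => ∑ i, (τ m).toLin (a i i)) (hyperfilter ℕ : Filter ℕ)
        (𝓝 (∑ i, σ.toLin (a i i)))
      exact tendsto_finsetSum _ fun i _ => hσ _
    exact (Complex.continuous_re.tendsto _).comp this
  obtain ⟨m₀, hm₀⟩ := h σ
  have hle : (σ.mat (y m₀)).re ≤ (σ.mat x).re + s + 0 := by
    have h1 : Tendsto (fun m : ℕ => ((τ m).mat x).re + s + 1 / ((m : ℝ) + 1))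
        (hyperfilter ℕ : Filter ℕ) (𝓝 ((σ.mat x).re + s + 0)) := by
      refine ((hlim x).add_const s).add ?_
      exact tendsto_one_div_add_atTop_nhds_zero_nat.mono_left Nat.hyperfilter_le_atTop
    refine le_of_tendsto_of_tendsto (hlim (y m₀)) h1 ?_
    have h2 : ∀ᶠ m in (hyperfilter ℕ : Filter ℕ), m₀ ≤ m :=
      Nat.hyperfilter_le_atTop (eventually_ge_atTop m₀)
    filter_upwards [h2] with m hm
    exact (hmono (τ m) hm).trans (hτ m).le
  linarith

end B

end Pool.Agent.Helper61.RC
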