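import Pool.Agent.Helper61.RC.Base2

open scoped ENNReal NNReal Topology CStarAlgebra ComplexOrder
open Filter

noncomputable section

namespace Pool.Agent.Helper61.RC

lemma exists_star_mul_of_nonneg {M : Type*} [CStarAlgebra M] [PartialOrder M] [StarOrderedRing M]
    {x : M} (h : 0 ≤ x) : ∃ c : M, x = star c * c :=
  CStarAlgebra.nonneg_iff_eq_star_mul_self.mp h

section B
variable {A : Type*} [CStarAlgebra A] [PartialOrder A] [StarOrderedRing A]

theorem TracialState.mat_pos (τ : TracialState A) {ι : Type*} [Fintype ι] [DecidableEq ι]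
    (a : CStarMatrix ι ι A) : 0 ≤ τ.mat (star a * a) := by
  change 0 ≤ ∑ i, τ.toLin ((star a * a) i i)
  refine Finset.sum_nonneg fun i _ => ?_
  rw [CStarMatrix.mul_apply, map_sum]
  refine Finset.sum_nonneg fun l _ => ?_
  rw [CStarMatrix.star_apply]
  exact τ.pos' _

theorem TracialState.mat_comm (τ : TracialState A) {ι : Type*} [Fintype ι] [DecidableEq ι]
    (a b : CStarMatrix ι ι A) : τ.mat (a * b) = τ.mat (b * a) := by
  change ∑ i, τ.toLin ((a * b) i i) = ∑ i, τ.toLin ((b * a) i i)
  simp only [CStarMatrix.mul_apply, map_sum]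
  rw [Finset.sum_comm]
  refine Finset.sum_congr rfl fun i _ => Finset.sum_congr rfl fun l _ => ?_
  exact τ.comm' _ _

theorem TracialState.mat_mono (τ : TracialState A) {ι : Type*} [Fintype ι] [DecidableEq ι]
    {a b : CStarMatrix ι ι A} (hab : a ≤ b) : (τ.mat a).re ≤ (τ.mat b).re := by
  have h0 : 0 ≤ b - a := sub_nonneg.mpr hab
  obtain ⟨c, hc⟩ := exists_star_mul_of_nonneg h0
  have h1 := τ.mat_pos c
  rw [← hc, map_sub] at h1
  have h2 := (Complex.le_def.mp h1).1
  simpa using h2

theorem TracialState.star_eq (τ : TracialState A) (a : A) :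
    τ.toLin (star a) = star (τ.toLin a) := by
  have key : ∀ z : ℂ, (τ.toLin (star (a + z • (1 : A)) * (a + z • (1 : A))))
      = τ.toLin (star a * a) + z * τ.toLin (star a) + star z * τ.toLin a + star z * z := by
    intro z
    have : star (a + z • (1 : A)) * (a + z • (1 : A))
        = star a * a + z • star a + star z • a + (star z * z) • (1 : A) := by
      simp only [star_add, star_smul, star_one, add_mul, mul_add, mul_smul_comm, mul_one,
        smul_mul_assoc, one_mul, smul_add, smul_smul, mul_comm z]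
      abel
    rw [this]
    simp only [map_add, map_smul, smul_eq_mul, τ.one', mul_one]
  have h1 := τ.pos' (a + (1 : ℂ) • (1 : A))
  have h2 := τ.pos' (a + Complex.I • (1 : A))
  have h0 := τ.pos' a
  rw [key] at h1 h2
  have h0' := (Complex.le_def.mp h0).2
  have h1' := (Complex.le_def.mp h1).2
  have h2' := (Complex.le_def.mp h2).2
  apply Complex.ext
  · simp at h0' h1' h2' ⊢
    linarith
  · simp at h0' h1' h2' ⊢
    linarith

theorem TracialState.norm_toLin_le (τ : TracialState A) (a : A) : ‖τ.toLin a‖ ≤ ‖a‖ := by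
  have key : ∀ z : ℂ, (τ.toLin (star (a + z • (1 : A)) * (a + z • (1 : A))))
      = τ.toLin (star a * a) + z * τ.toLin (star a) + star z * τ.toLin a + star z * z := by
    intro z
    have : star (a + z • (1 : A)) * (a + z • (1 : A))
        = star a * a + z • star a + star z • a + (star z * z) • (1 : A) := by
      simp only [star_add, star_smul, star_one, add_mul, mul_add, mul_smul_comm, mul_one,
        smul_mul_assoc, one_mul, smul_add, smul_smul, mul_comm z]
      abel
    rw [this]
    simp only [map_add, map_smul, smul_eq_mul, τ.one', mul_one]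
  have h1 := τ.pos' (a + (-τ.toLin a) • (1 : A))
  rw [key, τ.star_eq] at h1
  have h2 : (τ.toLin (star a * a)).re ≤ ‖a‖ ^ 2 := by
    have h3 : 0 ≤ algebraMap ℝ A (‖a‖ ^ 2) - star a * a := by
      rw [sub_nonneg]
      exact CStarAlgebra.star_mul_le_algebraMap_norm_sq
    obtain ⟨c, hc⟩ := CStarAlgebra.nonneg_iff_eq_star_mul_self.mp h3
    have h4 := τ.pos' c
    rw [← hc, map_sub] at h4
    have h5 : algebraMap ℝ A (‖a‖ ^ 2) = ((‖a‖ ^ 2 : ℝ) : ℂ) • (1 : A) := by
      rw [Algebra.algebraMap_eq_smul_one]
      exact (Complex.coe_smul _ _).symm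
    rw [h5, map_smul, τ.one', smul_eq_mul, mul_one] at h4
    have h6 := (Complex.le_def.mp h4).1
    rw [Complex.sub_re, Complex.ofReal_re] at h6
    simpa using h6
  have h7 := (Complex.le_def.mp h1).1
  have h8 : ‖τ.toLin a‖ ^ 2 ≤ (τ.toLin (star a * a)).re := by
    rw [← Complex.normSq_eq_norm_sq, Complex.normSq_apply]
    simp at h7
    nlinarith
  exact abs_le_of_sq_le_sq' (by linarith) (norm_nonneg a) |>.2 |> fun h => h

end B

end Pool.Agent.Helper61.RC
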